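import Mathlib
import Pool.Agent.W467.Sym.Transfer

/-! Smooth subvarieties of projective space which are stable under the complex reflection group
`G(m, 1, a)` and cut out by forms of degree less than `m a` are complete intersections. -/

set_option autoImplicit false

namespace Pool.Agent.Results.MP_014caa_ag.LowDegreeSymmetric

open MvPolynomial

/-- The polynomial ring `ℂ[x_0, …, x_N]`. -/
abbrev Poly (N : ℕ) : Type := MvPolynomial (Fin (N + 1)) ℂ

/-- The gradient of the polynomial `F` at the point `x`. -/
noncomputable def grad {N : ℕ} (F : Poly N) (x : Fin (N + 1) → ℂ) : Fin (N + 1) → ℂ :=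
  fun i => eval x (pderiv i F)

/-- The common zeros in `ℂ^(N + 1)` of the polynomials in `I`: the affine cone over the projective
variety `X` when `I` is the homogeneous ideal of `X`. -/
def cone {N : ℕ} (I : Ideal (Poly N)) : Set (Fin (N + 1) → ℂ) := {x | ∀ F ∈ I, eval x F = 0}

/-- The conormal space of `X` at `x`: the span of the gradients at `x` of the elements of `I`. -/
noncomputable def conormal {N : ℕ} (I : Ideal (Poly N)) (x : Fin (N + 1) → ℂ) :
    Submodule ℂ (Fin (N + 1) → ℂ) :=
  Submodule.span ℂ {ξ | ∃ F ∈ I, ξ = grad F x}

/-- `I` is the homogeneous ideal of a nonsingular irreducible closed subvariety `X` of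
codimension `r` of the complex projective space `ℙ^N`: it is a homogeneous prime ideal, and at
every point of `X` the gradients of the elements of `I` span a space of dimension `r` (Jacobian
criterion). -/
structure IsSmoothVariety (N r : ℕ) (I : Ideal (Poly N)) : Prop where
  prime : I.IsPrime
  homogeneous : ∀ F ∈ I, ∀ d, homogeneousComponent d F ∈ I
  smooth : ∀ x ∈ cone I, x ≠ 0 → Module.finrank ℂ (conormal I x) = r

/-- `X` is stable under the group `G(m, 1, a)` acting on the first `a` coordinates: under all
permutations of `x_0, …, x_{a-1}` and under the multiplication of these coordinates by `m`-th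
roots of unity. For `m = 1` this is the symmetric group on `a` letters. -/
structure IsStable (N a m : ℕ) (I : Ideal (Poly N)) : Prop where
  perm : ∀ s : Equiv.Perm (Fin (N + 1)), (∀ i, a ≤ i.1 → s i = i) → ∀ F ∈ I, rename s F ∈ I
  diag : ∀ t : Fin (N + 1) → ℂ, (∀ i, i.1 < a → t i ^ m = 1) → (∀ i, a ≤ i.1 → t i = 1) →
    ∀ F ∈ I, aeval (fun i => C (t i) * X i : Fin (N + 1) → Poly N) F ∈ I

/-- `X` is cut out scheme-theoretically by forms of degree less than `d`: the common zeros of the
elements of `I` of degree less than `d` are the points of `X`, and at each point of `X` their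
gradients span the conormal space of `X`. -/
structure IsCutOutBelow {N : ℕ} (d : ℕ) (I : Ideal (Poly N)) : Prop where
  zeros : ∀ x, (∀ F ∈ I, F.totalDegree < d → eval x F = 0) → x ∈ cone I
  grads : ∀ x ∈ cone I, conormal I x ≤
    Submodule.span ℂ {ξ | ∃ F ∈ I, F.totalDegree < d ∧ ξ = grad F x}

/-- Let `X ⊂ ℙ^N` be a nonsingular irreducible closed subvariety of codimension `r` (of dimension
`n = N - r`), stable under the group `G(m, 1, a)` acting on the first `a` coordinates, where
`2 ≤ a ≤ N + 1` and `m ≥ 1`, and not contained in the hyperplane `x_0 = x_1`, nor in the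
hyperplane `x_0 = 0` if `m ≥ 2`. If `X` is cut out scheme-theoretically by forms of degree less
than `m a`, then `X` is a complete intersection: its homogeneous ideal is generated by `r` forms,
of degree less than `m a`. -/
theorem result (N r a m : ℕ) (ha : 2 ≤ a) (haN : a ≤ N + 1) (hm : 1 ≤ m)
    (I : Ideal (Poly N)) (hI : IsSmoothVariety N r I) (hst : IsStable N a m I)
    (h01 : (X 0 - X 1 : Poly N) ∉ I) (h0 : 2 ≤ m → (X 0 : Poly N) ∉ I)
    (hcut : IsCutOutBelow (m * a) I) :
    ∃ F : Fin r → Poly N, (∀ i, ∃ d < m * a, (F i).IsHomogeneous d) ∧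
      I = Ideal.span (Set.range F) :=
  Pool.Agent.W467.Sym.main_fin ha haN hm I hI.prime hI.homogeneous hI.smooth hst.perm hst.diag
    h01 h0 hcut.zeros hcut.grads

end Pool.Agent.Results.MP_014caa_ag.LowDegreeSymmetric
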